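import Pool.Agent.Lib.MP_8a52c3_lc.Cor.Cls
import Pool.Agent.Lib.MP_8a52c3_lc.Cor.Slice
import Pool.Agent.Lib.MP_8a52c3_lc.Cor.Filt

namespace Pool.Agent.Lib.MP_8a52c3_lc.Cor
open Finset

theorem block_gap {x y Q : ℕ} (h : x % Q = y % Q) (hxy : x < y) : x + Q ≤ y := by
  have h1 : Q ∣ y - x := (Nat.modEq_iff_dvd' hxy.le).1 h
  have h2 : Q ≤ y - x := Nat.le_of_dvd (by omega) h1
  omega

/-- Functions supported on the chosen weight classes that have degree at most `c` on each class. -/
def blockW (l Q a q N c : ℕ) : Submodule F ((Fin l → F) → F) where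
  carrier := {f | (∀ x, (∀ i < N, wt x % Q ≠ (a + q * i) % Q) → f x = 0) ∧
    ∀ i < N, ∃ g ∈ LD (Fin l) c, ∀ x, wt x % Q = (a + q * i) % Q → f x = g x}
  add_mem' := by
    rintro f f' ⟨h1, h2⟩ ⟨h1', h2'⟩
    refine ⟨fun x hx => ?_, fun i hi => ?_⟩
    · simp [h1 x hx, h1' x hx]
    · obtain ⟨g, hg, hfg⟩ := h2 i hi
      obtain ⟨g', hg', hfg'⟩ := h2' i hi
      exact ⟨g + g', Submodule.add_mem _ hg hg', fun x hx => by simp [hfg x hx, hfg' x hx]⟩
  zero_mem' := ⟨fun _ _ => rfl, fun _ _ => ⟨0, Submodule.zero_mem _, fun _ _ => rfl⟩⟩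
  smul_mem' := by
    rintro c f ⟨h1, h2⟩
    refine ⟨fun x hx => ?_, fun i hi => ?_⟩
    · simp [h1 x hx]
    · obtain ⟨g, hg, hfg⟩ := h2 i hi
      exact ⟨c • g, Submodule.smul_mem _ _ hg, fun x hx => by simp [hfg x hx]⟩

theorem block_mem_W {l Q a q N c : ℕ} {f : (Fin l → F) → F} :
    f ∈ blockW l Q a q N c ↔ (∀ x, (∀ i < N, wt x % Q ≠ (a + q * i) % Q) → f x = 0) ∧
      ∀ i < N, ∃ g ∈ LD (Fin l) c, ∀ x, wt x % Q = (a + q * i) % Q → f x = g x := Iff.rfl

theorem block_k_le {q N w i : ℕ} (hN : q * (N - 1) ≤ w) (hi : i < N) : q * i ≤ w :=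
  le_trans (Nat.mul_le_mul_left q (by omega)) hN

theorem block_k_inj {a q N w Q i i' : ℕ} (hw : w < Q) (hq : 0 < q) (hN : q * (N - 1) ≤ w)
    (hi : i < N) (hi' : i' < N) (h : (a + q * i) % Q = (a + q * i') % Q) : i = i' := by
  have e1 := block_k_le hN hi
  have e2 := block_k_le hN hi'
  rcases lt_trichotomy (a + q * i) (a + q * i') with h1 | h1 | h1
  · have := block_gap h h1
    omega
  · exact Nat.eq_of_mul_eq_mul_left hq (by omega)
  · have := block_gap h.symm h1
    omega

theorem block_rank (Q a w q N l c : ℕ) (hw : w < Q) (hc : c ≤ a) (hq : 0 < q)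
    (hN : q * (N - 1) ≤ w) (hl : l = 2 * a + w + Q) :
    N * l.choose c ≤ Module.finrank F (blockW l Q a q N c) := by
  classical
  have hs : ∀ i : Fin N, ∃ f : Fin (l.choose c) → (Fin l → F) → F, (∀ r, f r ∈ LD (Fin l) c) ∧
      ∀ y : Fin (l.choose c) → F, (∀ x, wt x = a + q * i → ∑ r, y r * f r x = 0) → y = 0 := by
    intro i
    have e1 := block_k_le hN i.2
    exact slice_rank l c (a + q * i) (by omega) (by omega)
  choose f hf hind using hs
  let v : Fin N × Fin (l.choose c) → blockW l Q a q N c := fun p =>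
    ⟨fun x => if wt x % Q = (a + q * p.1) % Q then f p.1 p.2 x else 0, by
      rw [block_mem_W]
      refine ⟨fun x hx => if_neg (hx p.1 p.1.2), fun i hi => ?_⟩
      by_cases hpi : (p.1 : ℕ) = i
      · refine ⟨f p.1 p.2, hf _ _, fun x hx => ?_⟩
        rw [if_pos (by rw [hpi]; exact hx)]
      · refine ⟨0, Submodule.zero_mem _, fun x hx => ?_⟩
        rw [if_neg]
        · rfl
        · intro h
          exact hpi (block_k_inj hw hq hN p.1.2 hi (h.symm.trans hx))⟩
  have hli : LinearIndependent F v := by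
    rw [Fintype.linearIndependent_iff]
    rintro y hy ⟨i, r⟩
    have h0 := hind i (fun r => y (i, r)) (fun x hx => by
      have h1 := congrArg (fun g : blockW l Q a q N c => (g : (Fin l → F) → F) x) hy
      simp only [Submodule.coe_sum, Submodule.coe_smul, Finset.sum_apply, Pi.smul_apply,
        smul_eq_mul, ZeroMemClass.coe_zero, Pi.zero_apply, v] at h1
      rw [Fintype.sum_prod_type, Finset.sum_eq_single i] at h1
      · simpa [hx] using h1
      · intro i' _ hi'
        refine Finset.sum_eq_zero fun r' _ => ?_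
        rw [if_neg, mul_zero]
        intro h
        rw [hx] at h
        exact hi' (Fin.ext (block_k_inj hw hq hN i'.2 i.2 h.symm))
      · intro h
        exact absurd (Finset.mem_univ i) h)
    exact congrFun h0 r
  simpa using hli.fintype_card_le_finrank

/-- The pairing on a block of `l = 2a + w + 2^j` bits. -/
theorem block_exists (j a w z q N l : ℕ) (hw : w < 2 ^ j) (hz : z ≤ a) (hq : 0 < q)
    (hN : q * (N - 1) ≤ w) (hl : l = 2 * a + w + 2 ^ j) :
    ∃ P : Pairing (Fin l → F) (LD (Fin l)),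
      (∀ u, (∃ i < N, wt (P.β 0 u) = a + q * i) ∨ wt (P.β 0 u) + 2 ^ j ≤ a + w) ∧
      (∀ u, (∃ i < N, wt (P.β 1 u) = a + q * i + 2 ^ j) ∨ a + 2 * 2 ^ j ≤ wt (P.β 1 u)) ∧
      N * l.choose (a - z) ≤ (univ.filter (fun u => z ≤ P.μ u)).card := by
  classical
  let A : F → Set (Fin l → F) := fun b =>
    {x | (if b = 0 then wt x ≤ a + w else a + 2 ^ j ≤ wt x) ∧
      ∃ i < N, wt x % 2 ^ j = (a + q * i) % 2 ^ j}
  have hW : ∀ m, m < a → blockW l (2 ^ j) a q N (a - (m + 1)) ≤ blockW l (2 ^ j) a q N (a - m) := by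
    intro m _ f hf
    rw [block_mem_W] at hf ⊢
    refine ⟨hf.1, fun i hi => ?_⟩
    obtain ⟨g, hg, hfg⟩ := hf.2 i hi
    exact ⟨g, LD_mono (by omega) hg, hfg⟩
  have hmul : ∀ (δ m : ℕ) (g f : (Fin l → F) → F), δ ≤ m → m ≤ a → g ∈ LD (Fin l) δ →
      f ∈ blockW l (2 ^ j) a q N (a - m) → g * f ∈ blockW l (2 ^ j) a q N (a - (m - δ)) := by
    intro δ m g f h1 h2 hg hf
    rw [block_mem_W] at hf ⊢
    refine ⟨fun x hx => by simp [hf.1 x hx], fun i hi => ?_⟩
    obtain ⟨g', hg', hfg⟩ := hf.2 i hi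
    exact ⟨g * g', LD_mono (by omega) (LD_mul hg hg'), fun x hx => by simp [hfg x hx]⟩
  have hA : ∀ b, ∀ f ∈ blockW l (2 ^ j) a q N (a - 0), (∀ x ∈ A b, f x = 0) → f = 0 := by
    intro b f hf h0
    rw [block_mem_W] at hf
    funext x
    by_cases hx : ∃ i < N, wt x % 2 ^ j = (a + q * i) % 2 ^ j
    · obtain ⟨i, hi, hxi⟩ := hx
      obtain ⟨g, hg, hfg⟩ := hf.2 i hi
      have e1 := block_k_le hN hi
      have hG := LD_mul hg (class_mem (Fin l) j (a + q * i))
      have hG0 : (g * fun x : Fin l → F =>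
          if wt x % 2 ^ j = (a + q * i) % 2 ^ j then (1 : F) else 0) = 0 := by
        by_cases hb : b = 0
        · refine vanish_low hG fun y hy => ?_
          by_cases hyi : wt y % 2 ^ j = (a + q * i) % 2 ^ j
          · have hle : wt y ≤ a + w := by
              by_contra hc
              have := block_gap hyi.symm (by omega)
              omega
            have := h0 y ⟨by rw [if_pos hb]; exact hle, i, hi, hyi⟩
            rw [hfg y hyi] at this
            simp [this]
          · simp [hyi]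
        · refine vanish_high hG fun y hy => ?_
          by_cases hyi : wt y % 2 ^ j = (a + q * i) % 2 ^ j
          · have hle : a + 2 ^ j ≤ wt y := by
              rw [Fintype.card_fin] at hy
              have := block_gap hyi.symm (by omega)
              omega
            have := h0 y ⟨by rw [if_neg hb]; exact hle, i, hi, hyi⟩
            rw [hfg y hyi] at this
            simp [this]
          · simp [hyi]
      have := congrFun hG0 x
      rw [hfg x hxi]
      simpa [hxi] using this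
    · exact hf.1 x fun i hi h => hx ⟨i, hi, h⟩
  obtain ⟨P, hP, hr⟩ := pairing_exists (LD (Fin l)) (fun m => blockW l (2 ^ j) a q N (a - m)) a
    hW hmul A hA
  refine ⟨P, fun u => ?_, fun u => ?_, ?_⟩
  · obtain ⟨h1, i, hi, h2⟩ := hP 0 u
    rw [if_pos rfl] at h1
    have e1 := block_k_le hN hi
    rcases lt_trichotomy (wt (P.β 0 u)) (a + q * i) with h | h | h
    · have := block_gap h2 h
      right
      omega
    · exact Or.inl ⟨i, hi, h⟩
    · have := block_gap h2.symm h
      omega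
  · obtain ⟨h1, i, hi, h2⟩ := hP 1 u
    rw [if_neg (by decide)] at h1
    have e1 := block_k_le hN hi
    have h3 : wt (P.β 1 u) % 2 ^ j = (a + q * i + 2 ^ j) % 2 ^ j := by
      rw [Nat.add_mod_right]
      exact h2
    rcases lt_trichotomy (wt (P.β 1 u)) (a + q * i + 2 ^ j) with h | h | h
    · have := block_gap h3 h
      omega
    · exact Or.inl ⟨i, hi, h⟩
    · have := block_gap h3.symm h
      right
      omega
  · exact le_trans (block_rank (2 ^ j) a w q N l (a - z) hw (by omega) hq hN hl) (hr z hz)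

end Pool.Agent.Lib.MP_8a52c3_lc.Cor
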