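import Pool.Agent.Lib.MP_8a52c3_lc.Cor.LowDeg

namespace Pool.Agent.Lib.MP_8a52c3_lc.Cor
open Finset

theorem cls_mon_eq {σ : Type} [Fintype σ] [DecidableEq σ] (S : Finset σ) (x : σ → F) :
    mon S x = if S ⊆ univ.filter (fun i => x i = 1) then 1 else 0 := by
  unfold mon
  split_ifs with h
  · exact Finset.prod_eq_one (fun v hv => (mem_filter.mp (h hv)).2)
  · rw [Finset.not_subset] at h
    obtain ⟨v, hv, hv'⟩ := h
    refine Finset.prod_eq_zero hv ?_
    have h1 : x v ≠ 1 := fun h => hv' (mem_filter.mpr ⟨mem_univ _, h⟩)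
    have : ∀ a : F, a ≠ 1 → a = 0 := by decide
    exact this _ h1

theorem cls_choose_mem (σ : Type) [Fintype σ] (t : ℕ) :
    (fun x : σ → F => (((wt x).choose t : ℕ) : F)) ∈ LD σ t := by
  classical
  have h : (fun x : σ → F => (((wt x).choose t : ℕ) : F)) =
      ∑ S ∈ powersetCard t (univ : Finset σ), mon S := by
    funext x
    rw [Finset.sum_apply]
    simp only [cls_mon_eq]
    rw [Finset.sum_boole]
    congr 1
    have hw : wt x = (univ.filter (fun i => x i = 1)).card := by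
      unfold wt; congr
    rw [hw, ← Finset.card_powersetCard]
    congr 1
    ext S
    simp only [mem_powersetCard, mem_filter, subset_univ, true_and]
    tauto
  rw [h]
  exact Submodule.sum_mem _ (fun S hS => mon_mem S (mem_powersetCard.mp hS).2.le)

theorem cls_choose_odd (j : ℕ) : ∀ y : ℕ,
    ((y.choose (2 ^ j - 1) : ℕ) : F) = if y % 2 ^ j = 2 ^ j - 1 then 1 else 0 := by
  induction j with
  | zero => intro y; simp [Nat.mod_one]
  | succ j ih =>
    intro y
    haveI : Fact (Nat.Prime 2) := ⟨Nat.prime_two⟩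
    have h := Choose.choose_modEq_choose_mod_mul_choose_div_nat (n := y) (k := 2 ^ (j + 1) - 1) (p := 2)
    have hpos : 0 < 2 ^ j := by positivity
    have e1 : (2 ^ (j + 1) - 1) % 2 = 1 := by rw [pow_succ]; omega
    have e2 : (2 ^ (j + 1) - 1) / 2 = 2 ^ j - 1 := by rw [pow_succ]; omega
    rw [e1, e2] at h
    have h' := (ZMod.natCast_eq_natCast_iff _ _ 2).mpr h
    rw [h', Nat.cast_mul, ih, Nat.choose_one_right]
    have e3 : y % 2 ^ (j + 1) = y % 2 + 2 * (y / 2 % 2 ^ j) := by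
      rw [pow_succ', Nat.mod_mul]
    have hlt : y / 2 % 2 ^ j < 2 ^ j := Nat.mod_lt _ hpos
    rw [e3, pow_succ]
    rcases Nat.mod_two_eq_zero_or_one y with h0 | h0
    · rw [h0]
      have : ¬ (0 + 2 * (y / 2 % 2 ^ j) = 2 ^ j * 2 - 1) := by omega
      rw [if_neg this]; simp
    · rw [h0]
      by_cases hc : y / 2 % 2 ^ j = 2 ^ j - 1
      · have : 1 + 2 * (y / 2 % 2 ^ j) = 2 ^ j * 2 - 1 := by omega
        rw [if_pos hc, if_pos this]; simp
      · have : ¬ (1 + 2 * (y / 2 % 2 ^ j) = 2 ^ j * 2 - 1) := by omega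
        rw [if_neg hc, if_neg this]; simp

theorem cls_mod_iff (Q w k : ℕ) (hQ : 0 < Q) :
    (w + (Q - 1 - k % Q)) % Q = Q - 1 ↔ w % Q = k % Q := by
  have hk : k % Q < Q := Nat.mod_lt _ hQ
  have hw : w % Q < Q := Nat.mod_lt _ hQ
  rw [← Nat.mod_add_mod]
  by_cases h : w % Q + (Q - 1 - k % Q) < Q
  · rw [Nat.mod_eq_of_lt h]; omega
  · rw [Nat.mod_eq_sub_mod (by omega), Nat.mod_eq_of_lt (by omega)]; omega

/-- The indicator of a weight class modulo a power of two has low degree. -/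
theorem class_mem (σ : Type) [Fintype σ] (j k : ℕ) :
    (fun x : σ → F => if wt x % 2 ^ j = k % 2 ^ j then (1 : F) else 0) ∈ LD σ (2 ^ j - 1) := by
  have hpos : 0 < 2 ^ j := by positivity
  set c := 2 ^ j - 1 - k % 2 ^ j with hc
  have h : (fun x : σ → F => if wt x % 2 ^ j = k % 2 ^ j then (1 : F) else 0) =
      ∑ ij ∈ antidiagonal (2 ^ j - 1),
        ((c.choose ij.2 : ℕ) : F) • (fun x : σ → F => (((wt x).choose ij.1 : ℕ) : F)) := by
    funext x
    have h1 := cls_choose_odd j (wt x + c)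
    simp only [hc, cls_mod_iff _ _ _ hpos] at h1
    rw [← h1, Nat.add_choose_eq, Finset.sum_apply, Nat.cast_sum]
    refine Finset.sum_congr rfl (fun ij _ => ?_)
    simp only [Pi.smul_apply, smul_eq_mul, Nat.cast_mul]
    ring
  rw [h]
  refine Submodule.sum_mem _ (fun ij hij => Submodule.smul_mem _ _ ?_)
  have hle : ij.1 ≤ 2 ^ j - 1 := by
    have := mem_antidiagonal.mp hij; omega
  exact LD_mono hle (cls_choose_mem σ ij.1)

end Pool.Agent.Lib.MP_8a52c3_lc.Cor
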