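import Pool.Agent.Lib.MP_8a52c3_lc.Cor.Defs

namespace Pool.Agent.Lib.MP_8a52c3_lc.Cor
open Finset

section
variable {κ ι : Type} [Fintype κ] [DecidableEq κ] [Fintype ι] [DecidableEq ι]

/-- Indicator vector of a set of blocks. -/
def chi (g : Finset κ) : κ → F := fun i => if i ∈ g then 1 else 0

/-- Sum over the subcube of labels in the directions `I`. -/
def NS (I : Finset κ) (φ : (κ → F) → F) (s : κ → F) : F := ∑ g ∈ I.powerset, φ (s + chi g)

omit [Fintype κ] in
theorem chi_insert {g : Finset κ} {j : κ} (h : j ∉ g) :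
    chi (insert j g) = Pi.single j 1 + chi g := by
  funext i
  by_cases hi : i = j
  · subst hi; simp [chi, h]
  · simp [chi, hi]

omit [Fintype κ] in
theorem NS_insert {I : Finset κ} {j : κ} (h : j ∉ I) (φ : (κ → F) → F) (s : κ → F) :
    NS (insert j I) φ s = NS I φ s + NS I φ (s + Pi.single j 1) := by
  unfold NS
  rw [Finset.sum_powerset_insert h]
  congr 1
  refine Finset.sum_congr rfl fun g hg => ?_
  rw [chi_insert (fun hj => h (Finset.mem_powerset.1 hg hj)), add_assoc]

omit [Fintype κ] in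
theorem NS_empty (φ : (κ → F) → F) (s : κ → F) : NS ∅ φ s = φ s := by
  have : chi (∅ : Finset κ) = 0 := by funext i; simp [chi]
  simp [NS, this]

omit [Fintype κ] in
theorem NS_mono {I J : Finset κ} (h : I ⊆ J) (φ : (κ → F) → F) (h0 : ∀ s, NS I φ s = 0) :
    ∀ s, NS J φ s = 0 := by
  have key : ∀ K : Finset κ, Disjoint K I → ∀ s, NS (K ∪ I) φ s = 0 := by
    intro K
    induction K using Finset.induction_on with
    | empty => intro _; simpa using h0
    | insert j K hj ih =>
      intro hd s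
      rw [Finset.disjoint_insert_left] at hd
      have hn : j ∉ K ∪ I := by simp [hj, hd.1]
      rw [Finset.insert_union, NS_insert hn, ih hd.2, ih hd.2, add_zero]
  have := key (J \ I) Finset.sdiff_disjoint
  rwa [Finset.sdiff_union_of_subset h] at this

omit [Fintype κ] in
theorem NS_flip {I : Finset κ} {j : κ} (h : j ∈ I) (φ : (κ → F) → F) (s : κ → F) :
    NS I φ s + NS I φ (s + Pi.single j 1) = 0 := by
  obtain ⟨I', hj, rfl⟩ : ∃ I', j ∉ I' ∧ I = insert j I' :=
    ⟨I.erase j, Finset.notMem_erase _ _, (Finset.insert_erase h).symm⟩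
  have h2 : s + Pi.single j 1 + Pi.single j 1 = s := by
    funext i
    simp only [Pi.add_apply, add_assoc, CharTwo.add_self_eq_zero, add_zero]
  rw [NS_insert hj, NS_insert hj, h2, add_comm (NS I' φ (s + Pi.single j 1))]
  exact CharTwo.add_self_eq_zero _

/-- Total excess depth. -/
def xi (μ : ι → ℕ) (d : ℕ) (u : κ → ι) : ℕ := ∑ i, (μ (u i) - 3 * d)

/-- The potential. -/
def ph (μ : ι → ℕ) (d : ℕ) (u : κ → ι) (I : Finset κ) : ℕ := ∑ i ∈ I, min (μ (u i) - d) (2 * d)

open Classical in
/-- Flip the label in a deep block of `u`. -/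
noncomputable def Tw (μ : ι → ℕ) (d : ℕ) :
    ((κ → F) → (κ → ι) → F) →ₗ[F] ((κ → F) → (κ → ι) → F) where
  toFun lam := fun s u =>
    if h : ∃ i, 3 * d ≤ μ (u i) then lam (s + Pi.single h.choose 1) u else 0
  map_add' a b := by
    funext s u
    by_cases h : ∃ i, 3 * d ≤ μ (u i) <;> simp [h]
  map_smul' c a := by
    funext s u
    by_cases h : ∃ i, 3 * d ≤ μ (u i) <;> simp [h]

omit [Fintype ι] [DecidableEq ι] [DecidableEq κ] in
theorem ph_le (μ : ι → ℕ) (d : ℕ) (u : κ → ι) (I : Finset κ) :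
    ph μ d u I ≤ 2 * d * Fintype.card κ := by
  unfold ph
  calc _ ≤ ∑ _i ∈ I, 2 * d := Finset.sum_le_sum fun i _ => min_le_right _ _
    _ = I.card * (2 * d) := by simp
    _ ≤ Fintype.card κ * (2 * d) := Nat.mul_le_mul_right _ (Finset.card_le_univ I)
    _ = _ := by ring

omit [DecidableEq ι] in
theorem core_key (μ : ι → ℕ) (d : ℕ) (hd : 1 ≤ d) (E : (κ → F) → Matrix (κ → ι) (κ → ι) F)
    (hA : ∀ s u u', E s u u' ≠ 0 → ∑ i, (μ (u i) - μ (u' i)) ≤ d)
    (hB : ∀ s t u, (∀ i, μ (u i) < d → s i = t i) → E s u = E t u)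
    (lam : (κ → F) → (κ → ι) → F)
    (hl : ∀ s, lam s = (E s).mulVec (lam s + Tw μ d lam s)) (r : ℕ) :
    ∀ (u : κ → ι) (I : Finset κ), 2 * d * Fintype.card κ < ph μ d u I + r →
      2 * d * Fintype.card κ + d < xi μ d u + ph μ d u I →
      ∀ s, NS I (fun t => lam t u) s = 0 := by
  induction r with
  | zero => intro u I h; have := ph_le μ d u I; omega
  | succ r ih =>
    intro u I h1 h2
    have hph : ph μ d u (I.filter fun i => d ≤ μ (u i)) = ph μ d u I := by
      unfold ph
      refine Finset.sum_filter_of_ne fun i _ hne => ?_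
      by_contra hc
      apply hne
      have : μ (u i) - d = 0 := by omega
      simp [this]
    refine NS_mono (Finset.filter_subset (fun i => d ≤ μ (u i)) I) _ ?_
    rw [← hph] at h1 h2
    have hdeep : ∀ i ∈ I.filter (fun i => d ≤ μ (u i)), d ≤ μ (u i) :=
      fun i hi => (Finset.mem_filter.1 hi).2
    generalize I.filter (fun i => d ≤ μ (u i)) = J at h1 h2 hdeep
    intro s
    have hexp : NS J (fun t => lam t u) s
        = ∑ u', E s u u' * NS J (fun t => lam t u' + Tw μ d lam t u') s := by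
      unfold NS
      simp only [Finset.mul_sum]
      rw [Finset.sum_comm]
      refine Finset.sum_congr rfl fun g hg => ?_
      have hrow : E (s + chi g) u = E s u := by
        refine hB _ _ _ fun i hi => ?_
        have : i ∉ g := fun hig => by
          have := hdeep i (Finset.mem_powerset.1 hg hig); omega
        simp [chi, this]
      conv_lhs => rw [hl (s + chi g)]
      simp only [Matrix.mulVec, dotProduct, hrow, Pi.add_apply]
    rw [hexp]
    refine Finset.sum_eq_zero fun u' _ => ?_
    by_cases h0 : E s u u' = 0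
    · rw [h0, zero_mul]
    have hs := hA s u u' h0
    have hxi : xi μ d u ≤ xi μ d u' + d := by
      unfold xi
      calc _ ≤ ∑ i, ((μ (u' i) - 3 * d) + (μ (u i) - μ (u' i))) :=
            Finset.sum_le_sum fun i _ => by omega
        _ ≤ _ := by rw [Finset.sum_add_distrib]; omega
    have hp : ph μ d u J ≤ ph μ d u' J + d := by
      unfold ph
      calc _ ≤ ∑ i ∈ J, (min (μ (u' i) - d) (2 * d) + (μ (u i) - μ (u' i))) :=
            Finset.sum_le_sum fun i _ => by omega
        _ ≤ _ := by
          rw [Finset.sum_add_distrib]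
          have : ∑ i ∈ J, (μ (u i) - μ (u' i)) ≤ ∑ i, (μ (u i) - μ (u' i)) :=
            Finset.sum_le_sum_of_subset (Finset.subset_univ J)
          omega
    have hb := ph_le μ d u J
    have hex : ∃ i, 3 * d ≤ μ (u' i) := by
      by_contra hc
      push Not at hc
      have : xi μ d u' = 0 := Finset.sum_eq_zero fun i _ => by have := hc i; omega
      omega
    have hj := hex.choose_spec
    have hT : NS J (fun t => lam t u' + Tw μ d lam t u') s
        = NS J (fun t => lam t u') s + NS J (fun t => lam t u') (s + Pi.single hex.choose 1) := by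
      unfold NS
      rw [← Finset.sum_add_distrib]
      refine Finset.sum_congr rfl fun g _ => ?_
      simp only [Tw, LinearMap.coe_mk, AddHom.coe_mk, dif_pos hex]
      rw [add_right_comm s]
    rw [hT]
    generalize hex.choose = j at hj
    by_cases hjJ : j ∈ J
    · rw [NS_flip hjJ, mul_zero]
    · rw [← NS_insert hjJ]
      have hins : ph μ d u' (insert j J) = ph μ d u' J + 2 * d := by
        unfold ph
        rw [Finset.sum_insert hjJ, add_comm]
        congr 1
        omega
      rw [ih u' (insert j J) (by omega) (by omega), mul_zero]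

theorem sg_add (a b : F) : sg (a + b) = sg a * sg b := by
  revert a b; decide

omit [DecidableEq κ] in
theorem prod_sg (s : κ → F) : ∏ i, sg (s i) = sg (∑ i, s i) := by
  classical
  have : ∀ I : Finset κ, ∏ i ∈ I, sg (s i) = sg (∑ i ∈ I, s i) := by
    intro I
    induction I using Finset.induction_on with
    | empty => simp [sg]
    | insert j I hj ih => rw [Finset.prod_insert hj, Finset.sum_insert hj, ih, sg_add]
  exact this _

omit [DecidableEq ι] in
theorem core_dim (μ : ι → ℕ) (d : ℕ) (hd : 1 ≤ d) (E : (κ → F) → Matrix (κ → ι) (κ → ι) F)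
    (hE : ∀ s, E s * E s = E s)
    (hA : ∀ s u u', E s u u' ≠ 0 → ∑ i, (μ (u i) - μ (u' i)) ≤ d)
    (hB : ∀ s t u, (∀ i, μ (u i) < d → s i = t i) → E s u = E t u) (ε : F) :
    ∑ s : κ → F, (if ∑ i, s i = ε then (E s).rank else 0)
      ≤ ∑ s : κ → F, (if ∑ i, s i = ε then 0 else (E s).rank)
        + 2 ^ Fintype.card κ *
          (univ.filter fun u : κ → ι => xi μ d u ≤ 2 * d * Fintype.card κ + d).card := by
  let W : (κ → F) → Submodule F ((κ → ι) → F) := fun s =>
    if ∑ i, s i = ε then LinearMap.range (E s).mulVecLin else ⊥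
  let W' : (κ → F) → Submodule F ((κ → ι) → F) := fun s =>
    if ∑ i, s i = ε then ⊥ else LinearMap.range (E s).mulVecLin
  let incl : (∀ s, W s) →ₗ[F] ((κ → F) → (κ → ι) → F) :=
    LinearMap.pi fun s => (W s).subtype ∘ₗ LinearMap.proj s
  let Φ1 : (∀ s, W s) →ₗ[F] (∀ s, W' s) := LinearMap.pi fun t =>
    LinearMap.codRestrict (W' t)
      ((if ∑ i, t i = ε then 0 else (E t).mulVecLin) ∘ₗ LinearMap.proj t ∘ₗ Tw μ d ∘ₗ incl)
      (by
        intro x
        by_cases h : ∑ i, t i = ε
        · simp [W', h]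
        · simp only [W', h, if_false]
          exact ⟨_, rfl⟩)
  let Bad := {u : κ → ι // xi μ d u ≤ 2 * d * Fintype.card κ + d}
  let Φ2 : (∀ s, W s) →ₗ[F] ((κ → F) → Bad → F) := LinearMap.pi fun s => LinearMap.pi fun u =>
    LinearMap.proj u.1 ∘ₗ LinearMap.proj s ∘ₗ incl
  have hinj : Function.Injective (Φ1.prod Φ2) := by
    rw [injective_iff_map_eq_zero]
    intro x hx
    have h1 : Φ1 x = 0 := congrArg Prod.fst hx
    have h2 : Φ2 x = 0 := congrArg Prod.snd hx
    have hodd : ∀ s, ∑ i, s i ≠ ε → incl x s = 0 := by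
      intro s hs
      have hm : (x s : (κ → ι) → F) ∈ W s := (x s).2
      simp only [W, hs, if_false] at hm
      exact (Submodule.mem_bot F).1 hm
    have hl : ∀ s, incl x s = (E s).mulVec (incl x s + Tw μ d (incl x) s) := by
      intro s
      by_cases hs : ∑ i, s i = ε
      · have hT : Tw μ d (incl x) s = 0 := by
          funext u
          simp only [Tw, LinearMap.coe_mk, AddHom.coe_mk, Pi.zero_apply]
          split_ifs with h
          · rw [hodd]; · rfl
            simp only [Pi.add_apply, Finset.sum_add_distrib, hs]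
            simp
          · rfl
        have hm : (x s : (κ → ι) → F) ∈ W s := (x s).2
        simp only [W, hs, if_true] at hm
        obtain ⟨y, hy⟩ := hm
        have : incl x s = (E s).mulVec y := hy.symm
        rw [hT, add_zero, this, Matrix.mulVec_mulVec, hE]
      · have h3 : ((Φ1 x s : W' s) : (κ → ι) → F) = 0 := by rw [h1]; rfl
        have h4 : (E s).mulVec (Tw μ d (incl x) s) = 0 := by
          simpa [Φ1, hs] using h3
        rw [hodd s hs, zero_add, h4]
    funext s
    apply Subtype.ext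
    funext u
    change incl x s u = 0
    by_cases hu : xi μ d u ≤ 2 * d * Fintype.card κ + d
    · exact congrFun (congrFun h2 s) ⟨u, hu⟩
    · have := core_key μ d hd E hA hB (incl x) hl (2 * d * Fintype.card κ + 1) u ∅ (by omega)
        (by omega) s
      rwa [NS_empty] at this
  have hle := LinearMap.finrank_le_finrank_of_injective hinj
  rw [Module.finrank_prod, Module.finrank_pi_fintype, Module.finrank_pi_fintype,
    Module.finrank_pi_fintype] at hle
  have e1 : ∀ s, Module.finrank F (W s) = if ∑ i, s i = ε then (E s).rank else 0 := by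
    intro s
    by_cases hs : ∑ i, s i = ε
    · have : W s = LinearMap.range (E s).mulVecLin := by simp only [W, hs, if_true]
      rw [this, if_pos hs]; rfl
    · have : W s = ⊥ := by simp only [W, hs, if_false]
      rw [this, if_neg hs, finrank_bot]
  have e2 : ∀ s, Module.finrank F (W' s) = if ∑ i, s i = ε then 0 else (E s).rank := by
    intro s
    by_cases hs : ∑ i, s i = ε
    · have : W' s = ⊥ := by simp only [W', hs, if_true]
      rw [this, if_pos hs, finrank_bot]
    · have : W' s = LinearMap.range (E s).mulVecLin := by simp only [W', hs, if_false]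
      rw [this, if_neg hs]; rfl
  simp only [e1, e2] at hle
  refine hle.trans (le_of_eq ?_)
  congr 1
  simp [Bad, Fintype.card_subtype]

omit [DecidableEq ι] in
theorem core_bad (μ : ι → ℕ) (d : ℕ) (hd : 1 ≤ d) :
    ((univ.filter fun u : κ → ι => xi μ d u ≤ 2 * d * Fintype.card κ + d).card : ℝ)
      ≤ 2 * (4 * GG μ d) ^ Fintype.card κ := by
  have h1 : (GG μ d) ^ Fintype.card κ
      = ∑ u : κ → ι, ∏ i, (1 / 2 : ℝ) ^ ((μ (u i) - 3 * d) / d) := by
    have := Finset.prod_univ_sum (fun _ : κ => (univ : Finset ι))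
      (fun _ v => (1 / 2 : ℝ) ^ ((μ v - 3 * d) / d))
    simpa [GG] using this
  rw [mul_pow, h1, ← mul_assoc, Finset.mul_sum, Finset.card_eq_sum_ones, Nat.cast_sum,
    Finset.sum_filter]
  refine Finset.sum_le_sum fun u _ => ?_
  split_ifs with hu
  · rw [Finset.prod_pow_eq_pow_sum]
    have h2 : ∑ i, (μ (u i) - 3 * d) / d ≤ 2 * Fintype.card κ + 1 := by
      have h3 : d * ∑ i, (μ (u i) - 3 * d) / d ≤ xi μ d u := by
        rw [Finset.mul_sum]
        exact Finset.sum_le_sum fun i _ => Nat.mul_div_le _ _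
      have h4 : d * ∑ i, (μ (u i) - 3 * d) / d ≤ d * (2 * Fintype.card κ + 1) := by
        calc _ ≤ _ := h3.trans hu
          _ = _ := by ring
      exact Nat.le_of_mul_le_mul_left h4 hd
    have h5 : (1 / 2 : ℝ) ^ (2 * Fintype.card κ + 1) ≤ (1 / 2 : ℝ) ^ ∑ i, (μ (u i) - 3 * d) / d :=
      pow_le_pow_of_le_one (by norm_num) (by norm_num) h2
    have h6 : (2 : ℝ) * 4 ^ Fintype.card κ * (1 / 2 : ℝ) ^ (2 * Fintype.card κ + 1) = 1 := by
      rw [pow_succ, pow_mul]
      have : (4 : ℝ) ^ Fintype.card κ * ((1 / 2 : ℝ) ^ 2) ^ Fintype.card κ = 1 := by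
        rw [← mul_pow]; norm_num
      linear_combination this
    have h7 : (0 : ℝ) ≤ 2 * 4 ^ Fintype.card κ := by positivity
    push_cast
    calc (1 : ℝ) = _ := h6.symm
      _ ≤ _ := mul_le_mul_of_nonneg_left h5 h7
  · positivity

end

theorem core_bound {κ ι : Type} [Fintype κ] [DecidableEq κ] [Fintype ι] [DecidableEq ι]
    (μ : ι → ℕ) (d : ℕ) (hd : 1 ≤ d) (E : (κ → F) → Matrix (κ → ι) (κ → ι) F)
    (hE : ∀ s, E s * E s = E s)
    (hA : ∀ s u u', E s u u' ≠ 0 → ∑ i, (μ (u i) - μ (u' i)) ≤ d)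
    (hB : ∀ s t u, (∀ i, μ (u i) < d → s i = t i) → E s u = E t u) :
    |∑ s : κ → F, ((∏ i, sg (s i) : ℤ) : ℝ) * ((E s).rank : ℝ)|
      ≤ 2 * (8 * GG μ d) ^ Fintype.card κ := by
  have h0 := core_dim μ d hd E hE hA hB 0
  have h1 := core_dim μ d hd E hE hA hB 1
  have hb := core_bad (κ := κ) μ d hd
  generalize (univ.filter fun u : κ → ι => xi μ d u ≤ 2 * d * Fintype.card κ + d).card = B
    at h0 h1 hb
  have hF : ∀ a : F, a = 1 ↔ ¬ a = 0 := by decide
  simp only [hF, ite_not] at h1
  have hs : ∑ s : κ → F, ((∏ i, sg (s i) : ℤ) : ℝ) * ((E s).rank : ℝ)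
      = ((∑ s : κ → F, (if ∑ i, s i = 0 then (E s).rank else 0) : ℕ) : ℝ)
        - ((∑ s : κ → F, (if ∑ i, s i = 0 then 0 else (E s).rank) : ℕ) : ℝ) := by
    push_cast
    rw [← Finset.sum_sub_distrib]
    refine Finset.sum_congr rfl fun s _ => ?_
    rw [← Int.cast_prod, prod_sg]
    unfold sg
    split_ifs <;> simp
  have h0' := (Nat.cast_le (α := ℝ)).2 h0
  have h1' := (Nat.cast_le (α := ℝ)).2 h1
  rw [Nat.cast_add, Nat.cast_mul, Nat.cast_pow] at h0' h1'
  have hB2 : ((2 : ℕ) : ℝ) ^ Fintype.card κ * (B : ℝ) ≤ 2 * (8 * GG μ d) ^ Fintype.card κ := by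
    have : (8 * GG μ d) ^ Fintype.card κ
        = (2 : ℝ) ^ Fintype.card κ * (4 * GG μ d) ^ Fintype.card κ := by
      rw [← mul_pow]; congr 1; ring
    rw [this]
    push_cast
    have h2 : (0 : ℝ) ≤ 2 ^ Fintype.card κ := by positivity
    nlinarith [mul_le_mul_of_nonneg_left hb h2]
  rw [hs, abs_le]
  constructor <;> linarith

end Pool.Agent.Lib.MP_8a52c3_lc.Cor
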