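import Mathlib

/-! Definitions for the correlation bound MOD q versus polynomials over the field with two elements. -/

namespace Pool.Agent.Lib.MP_8a52c3_lc.Cor
open Finset

abbrev F : Type := ZMod 2

/-- Hamming weight. -/
def wt {σ : Type} [Fintype σ] (x : σ → F) : ℕ := (univ.filter (fun i => x i = 1)).card

/-- The monomial function of a set of variables. -/
def mon {σ : Type} (S : Finset σ) (x : σ → F) : F := ∏ v ∈ S, x v

/-- Functions on the cube of degree at most `b`. -/
def LD (σ : Type) (b : ℕ) : Submodule F ((σ → F) → F) :=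
  Submodule.span F {f | ∃ S : Finset σ, S.card ≤ b ∧ f = mon S}

/-- Degree at most `d` functions on a product of blocks. -/
def TD (κ : Type) [Fintype κ] {X : Type} (D : ℕ → Submodule F (X → F)) (d : ℕ) :
    Submodule F ((κ → X) → F) :=
  Submodule.span F {f | ∃ (δ : κ → ℕ) (g : κ → X → F), ∑ i, δ i ≤ d ∧ (∀ i, g i ∈ D (δ i)) ∧
    f = fun x => ∏ i, g i (x i)}

/-- Sign of a label. -/
def sg (b : F) : ℤ := if b = 0 then 1 else -1

/-- A family of functions `v u` with depths `μ u` and two information sets `β 0`, `β 1`. -/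
structure Pairing (X : Type) (D : ℕ → Submodule F (X → F)) where
  n : ℕ
  μ : Fin n → ℕ
  v : Fin n → X → F
  β : F → Fin n → X
  inj : ∀ b, Function.Injective (β b)
  info : ∀ (b : F) (y : Fin n → F), (∀ u', ∑ u, y u * v u (β b u') = 0) → y = 0
  mul : ∀ (δ : ℕ) (g : X → F), g ∈ D δ → ∀ u, δ ≤ μ u →
    g * v u ∈ Submodule.span F (v '' {u' | μ u ≤ μ u' + δ})

/-- Signed indicator of the two information sets. -/
def Pairing.h {X : Type} [DecidableEq X] {D : ℕ → Submodule F (X → F)} (P : Pairing X D) (x : X) : ℤ :=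
  ∑ b : F, ∑ u : Fin P.n, if P.β b u = x then sg b else 0

/-- The weighted number of shallow indices. -/
noncomputable def GG {ι : Type} [Fintype ι] (μ : ι → ℕ) (d : ℕ) : ℝ :=
  ∑ u : ι, (1 / 2 : ℝ) ^ ((μ u - 3 * d) / d)

end Pool.Agent.Lib.MP_8a52c3_lc.Cor
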