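import Pool.Agent.Lib.MP_8a52c3_lc.Cor.Good
import Pool.Agent.Lib.MP_8a52c3_lc.Cor.Expand

namespace Pool.Agent.Lib.MP_8a52c3_lc.Cor
open Finset

section
variable {κ σ : Type} [Fintype κ] [DecidableEq κ]

omit [DecidableEq κ] in
theorem TD_mono {a b : ℕ} (h : a ≤ b) : TD κ (LD σ) a ≤ TD κ (LD σ) b := by
  refine Submodule.span_mono ?_
  rintro f ⟨δ, g, h1, h2, rfl⟩
  exact ⟨δ, g, h1.trans h, h2, rfl⟩

omit [DecidableEq κ] in
theorem TD_mul {a b : ℕ} {f g : (κ → σ → F) → F} (hf : f ∈ TD κ (LD σ) a)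
    (hg : g ∈ TD κ (LD σ) b) : f * g ∈ TD κ (LD σ) (a + b) := by
  induction hf using Submodule.span_induction with
  | mem f hf =>
    induction hg using Submodule.span_induction with
    | mem g hg =>
      obtain ⟨δ, u, h1, h2, rfl⟩ := hf
      obtain ⟨δ', u', h1', h2', rfl⟩ := hg
      refine Submodule.subset_span ⟨fun i => δ i + δ' i, fun i => u i * u' i, ?_,
        fun i => LD_mul (h2 i) (h2' i), ?_⟩
      · rw [Finset.sum_add_distrib]; omega
      · funext x; simp [Finset.prod_mul_distrib]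
    | zero => simp
    | add g g' _ _ ih ih' => rw [mul_add]; exact Submodule.add_mem _ ih ih'
    | smul c g _ ih => rw [mul_smul_comm]; exact Submodule.smul_mem _ _ ih
  | zero => simp
  | add f f' _ _ ih ih' => rw [add_mul]; exact Submodule.add_mem _ ih ih'
  | smul c f _ ih => rw [smul_mul_assoc]; exact Submodule.smul_mem _ _ ih

omit [DecidableEq κ] in
theorem TD_const (b : ℕ) (c : F) : (fun _ => c) ∈ TD κ (LD σ) b := by
  have h1 : (fun _ => (1 : F)) ∈ TD κ (LD σ) b :=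
    Submodule.subset_span ⟨fun _ => 0, fun _ _ => 1, by simp, fun _ => const_mem σ 0 1, by
      funext x; simp⟩
  have := Submodule.smul_mem _ c h1
  convert this using 1
  funext x; simp

theorem TD_var (i : κ) (v : σ) : (fun y : κ → σ → F => y i v) ∈ TD κ (LD σ) 1 := by
  refine Submodule.subset_span ⟨fun j => if j = i then 1 else 0,
    fun j => if j = i then (fun x => x v) else fun _ => 1, by simp, fun j => ?_, ?_⟩
  · by_cases h : j = i
    · simp only [h, if_true]; exact var_mem v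
    · simp only [h, if_false]; exact const_mem σ 0 1
  · funext y
    rw [Finset.prod_eq_single i]
    · simp
    · intro j _ hj; simp [hj]
    · simp

omit [DecidableEq κ] in
theorem TD_comp {τ : Type} {b : ℕ} {f : (τ → F) → F} (hf : f ∈ LD τ b)
    (φ : τ → (κ → σ → F) → F) (hφ : ∀ v, φ v ∈ TD κ (LD σ) 1) :
    (fun y => f (fun v => φ v y)) ∈ TD κ (LD σ) b := by
  classical
  induction hf using Submodule.span_induction with
  | mem f hf =>
    obtain ⟨S, hS, rfl⟩ := hf
    refine TD_mono hS ?_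
    clear hS
    induction S using Finset.induction_on with
    | empty => simpa [mon] using TD_const (κ := κ) (σ := σ) 0 1
    | insert v S hv ih =>
      have := TD_mul (hφ v) ih
      rw [Finset.card_insert_of_notMem hv, add_comm]
      convert this using 1
      funext y
      simp [mon, Finset.prod_insert hv]
  | zero => exact Submodule.zero_mem _
  | add f f' _ _ ih ih' => exact Submodule.add_mem _ ih ih'
  | smul c f _ ih => exact Submodule.smul_mem _ c ih

end

theorem wt_eq_sum {σ : Type} [Fintype σ] (x : σ → F) :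
    wt x = ∑ v, if x v = 1 then 1 else 0 := by
  unfold wt
  rw [Finset.card_filter]

/-- Bound for the indicator of the ones of a low degree function. -/
theorem ind_bound {n k l r d : ℕ} (hn : k * l + r = n) (hd : 1 ≤ d) (ζ : ℂ) (hζ : ‖ζ‖ = 1)
    (P : Pairing (Fin l → F) (LD (Fin l))) (c : ℂ) (ρ : ℝ)
    (hρ : ∑ x, ‖ζ ^ wt x - c * (P.h x : ℂ)‖ + 8 * ‖c‖ * GG P.μ d ≤ ρ * 2 ^ l)
    (f : (Fin n → F) → F) (hf : f ∈ LD (Fin n) d) :
    ‖∑ x : Fin n → F, ((f x).val : ℂ) * ζ ^ wt x‖ ≤ 2 * ρ ^ k * 2 ^ n := by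
  let e : Fin n ≃ (Fin k × Fin l) ⊕ Fin r := Fintype.equivOfCardEq (by simp [hn])
  let E : (Fin r → F) × (Fin k → Fin l → F) ≃ (Fin n → F) :=
    { toFun := fun p v => Sum.elim (fun a => p.2 a.1 a.2) p.1 (e v)
      invFun := fun x => (fun b => x (e.symm (Sum.inr b)), fun i t => x (e.symm (Sum.inl (i, t))))
      left_inv := fun p => by simp
      right_inv := fun x => by
        funext v
        obtain ⟨s, rfl⟩ := e.symm.surjective v
        rcases s with ⟨i, t⟩ | b <;> simp }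
  have hw : ∀ (w : Fin r → F) (y : Fin k → Fin l → F),
      wt (E (w, y)) = wt w + ∑ i, wt (y i) := by
    intro w y
    simp only [wt_eq_sum]
    have := e.sum_comp (fun s => if Sum.elim (fun a : Fin k × Fin l => y a.1 a.2) w s = 1
      then 1 else 0)
    refine this.trans ?_
    rw [Fintype.sum_sum_type, Fintype.sum_prod_type, add_comm]
    rfl
  have hG : 0 ≤ GG P.μ d := Finset.sum_nonneg fun _ _ => by positivity
  have h0 : 0 ≤ ∑ x, ‖ζ ^ wt x - c * (P.h x : ℂ)‖ + 8 * ‖c‖ * GG P.μ d := by positivity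
  have hρ0 : 0 ≤ ρ := by
    have : 0 ≤ ρ * 2 ^ l := h0.trans hρ
    exact nonneg_of_mul_nonneg_left this (by positivity)
  rw [← E.sum_comp, Fintype.sum_prod_type]
  have hin : ∀ w : Fin r → F, ‖∑ y : Fin k → Fin l → F,
      ((f (E (w, y))).val : ℂ) * ζ ^ wt (E (w, y))‖ ≤ 2 * (ρ * 2 ^ l) ^ k := by
    intro w
    have hp : (fun y : Fin k → Fin l → F => f (E (w, y))) ∈ TD (Fin k) (LD (Fin l)) d := by
      refine TD_comp hf (fun v y => Sum.elim (fun a : Fin k × Fin l => y a.1 a.2) w (e v)) ?_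
      intro v
      rcases e v with ⟨i, t⟩ | b
      · exact TD_var i t
      · exact TD_const 1 (w b)
    have hb := expand_bound P d hd _ hp (fun x => ζ ^ wt x) c
    have heq : ∑ y : Fin k → Fin l → F, ((f (E (w, y))).val : ℂ) * ζ ^ wt (E (w, y))
        = ζ ^ wt w * ∑ y : Fin k → Fin l → F,
          ((f (E (w, y))).val : ℂ) * ∏ i, ζ ^ wt (y i) := by
      rw [Finset.mul_sum]
      refine Finset.sum_congr rfl fun y _ => ?_
      rw [hw, pow_add, Finset.prod_pow_eq_pow_sum]; ring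
    rw [heq, norm_mul, norm_pow, hζ, one_pow, one_mul]
    refine hb.trans ?_
    rw [Fintype.card_fin]
    gcongr
  calc _ ≤ ∑ w : Fin r → F, ‖∑ y : Fin k → Fin l → F,
      ((f (E (w, y))).val : ℂ) * ζ ^ wt (E (w, y))‖ := norm_sum_le _ _
    _ ≤ ∑ _w : Fin r → F, 2 * (ρ * 2 ^ l) ^ k := Finset.sum_le_sum fun w _ => hin w
    _ = 2 * ρ ^ k * 2 ^ n := by
      rw [← hn]
      simp only [Finset.sum_const, Finset.card_univ, Fintype.card_fun, ZMod.card,
        Fintype.card_fin, nsmul_eq_mul]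
      push_cast
      rw [mul_pow, pow_add, pow_mul']
      ring

theorem mod_correlation (q : ℕ) (hq : Odd q) (ζ : ℂ) (hζ : ζ ^ q = 1) (h1 : ζ ≠ 1) :
    ∃ c : ℝ, 0 < c ∧ ∀ n d : ℕ, 1 ≤ d → ∀ P : MvPolynomial (Fin n) (ZMod 2),
      P.totalDegree ≤ d →
      ‖∑ x : Fin n → ZMod 2, (-1 : ℂ) ^ (MvPolynomial.eval x P).val *
          ζ ^ (univ.filter (fun i => x i = 1)).card‖ / 2 ^ n
        ≤ 12 * Real.exp (-(c * n / d ^ 2)) := by
  obtain ⟨δ, hδ, C0, hC⟩ := good_block q hq ζ hζ h1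
  have hq0 : q ≠ 0 := by rintro rfl; simp at hq
  have hz : ‖ζ‖ = 1 := by
    have := congrArg norm hζ
    rw [norm_pow, norm_one] at this
    exact (pow_eq_one_iff_of_nonneg (norm_nonneg _) hq0).1 this
  have hC0 : 0 < C0 := by
    obtain ⟨l, h1, h2, -⟩ := hC 1 le_rfl
    simp at h2; omega
  refine ⟨δ / C0, by positivity, fun n d hd P hP => ?_⟩
  obtain ⟨l, hl1, hl2, Q, c, hQ⟩ := hC d hd
  have hn : n / l * l + n % l = n := Nat.div_add_mod' n l
  have hf := eval_mem P hP
  have hf' : (fun x => MvPolynomial.eval x P + 1) ∈ LD (Fin n) d :=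
    Submodule.add_mem _ hf (const_mem _ d 1)
  have b1 := ind_bound hn hd ζ hz Q c _ hQ _ hf
  have b2 := ind_bound hn hd ζ hz Q c _ hQ _ hf'
  have hG : 0 ≤ GG Q.μ d := Finset.sum_nonneg fun _ _ => by positivity
  have h0 : 0 ≤ ∑ x, ‖ζ ^ wt x - c * (Q.h x : ℂ)‖ + 8 * ‖c‖ * GG Q.μ d := by positivity
  have hρ0 : 0 ≤ 1 - δ := nonneg_of_mul_nonneg_left (h0.trans hQ) (by positivity)
  have heq : ∑ x : Fin n → ZMod 2, (-1 : ℂ) ^ (MvPolynomial.eval x P).val *
          ζ ^ (univ.filter (fun i => x i = 1)).card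
      = ∑ x : Fin n → F, ((MvPolynomial.eval x P + 1).val : ℂ) * ζ ^ wt x
        - ∑ x : Fin n → F, ((MvPolynomial.eval x P).val : ℂ) * ζ ^ wt x := by
    rw [← Finset.sum_sub_distrib]
    refine Finset.sum_congr rfl fun x _ => ?_
    have : ∀ a : F, (-1 : ℂ) ^ a.val = (((a + 1).val : ℕ) : ℂ) - (a.val : ℂ) := by
      intro a
      have : a = 0 ∨ a = 1 := by revert a; decide
      rcases this with rfl | rfl
      · simp [ZMod.val_one]
      · have h2 : ((1 : F) + 1) = 0 := by decide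
        simp [h2, ZMod.val_one]
    rw [this, sub_mul]; rfl
  rw [heq, div_le_iff₀ (by positivity)]
  refine (norm_sub_le _ _).trans ?_
  have hk : (1 - δ) ^ (n / l) ≤ Real.exp (-(δ * (n / l : ℕ))) := by
    have h3 : 1 - δ ≤ Real.exp (-δ) := by linarith [Real.add_one_le_exp (-δ)]
    calc _ ≤ Real.exp (-δ) ^ (n / l) := pow_le_pow_left₀ hρ0 h3 _
      _ = _ := by rw [← Real.exp_nat_mul]; congr 1; ring
  have hl0 : (0 : ℝ) < l := by exact_mod_cast hl1
  have hdiv : (n : ℝ) / (C0 * d ^ 2) ≤ (n / l : ℕ) + 1 := by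
    have h4 : (n : ℝ) ≤ ((n / l : ℕ) + 1) * l := by
      have : n ≤ (n / l + 1) * l := by
        have := Nat.mod_lt n hl1
        nlinarith
      exact_mod_cast this
    have h5 : (l : ℝ) ≤ C0 * d ^ 2 := by exact_mod_cast hl2
    rw [div_le_iff₀ (hl0.trans_le h5)]
    exact h4.trans (mul_le_mul_of_nonneg_left h5 (by positivity))
  have hexp : Real.exp (-(δ * (n / l : ℕ))) ≤ 3 * Real.exp (-(δ / C0 * n / d ^ 2)) := by
    have h6 : δ / C0 * n / d ^ 2 = δ * (n / (C0 * d ^ 2)) := by field_simp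
    have h7 : -(δ * (n / l : ℕ)) ≤ 1 + -(δ / C0 * n / d ^ 2) := by
      rw [h6]
      have := mul_le_mul_of_nonneg_left hdiv hδ.le
      nlinarith
    calc _ ≤ Real.exp (1 + -(δ / C0 * n / d ^ 2)) := Real.exp_le_exp.2 h7
      _ = Real.exp 1 * Real.exp (-(δ / C0 * n / d ^ 2)) := Real.exp_add _ _
      _ ≤ _ := by
        gcongr
        linarith [Real.exp_one_lt_d9]
  have h2n : (0 : ℝ) < 2 ^ n := by positivity
  nlinarith [mul_le_mul_of_nonneg_right (hk.trans hexp) h2n.le]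

end Pool.Agent.Lib.MP_8a52c3_lc.Cor
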