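import Mathlib

namespace Pool.Agent.Lib.MP_8a52c3_lc.Cor
open Finset

lemma num_succ (l i : ℕ) (hi : i ≤ l) :
    (l.choose (i + 1) : ℝ) * (i + 1) = l.choose i * ((l : ℝ) - i) := by
  have h := Nat.choose_succ_right_eq l i
  have h2 : ((l.choose (i + 1) * (i + 1) : ℕ) : ℝ) = ((l.choose i * (l - i) : ℕ) : ℝ) := by rw [h]
  rw [Nat.cast_mul, Nat.cast_mul, Nat.cast_sub hi] at h2
  exact_mod_cast h2

lemma num_N (z q : ℕ) (hq : 1 ≤ q) : (2 * z : ℝ) ≤ ((2 * z / q + 1 : ℕ) : ℝ) * q := by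
  have h := Nat.lt_div_mul_add (a := 2 * z) (b := q) hq
  have h2 : 2 * z ≤ (2 * z / q + 1) * q := by rw [add_mul, one_mul]; exact h.le
  exact_mod_cast h2

lemma num_down {l b : ℕ} {δ : ℝ} (hb : b ≤ l) (h1 : δ ≤ 1)
    (h : (b : ℝ) ≤ (1 - δ) * (l - b + 1)) {i : ℕ} (hi : i + 1 ≤ b) :
    (l.choose i : ℝ) ≤ (1 - δ) * l.choose (i + 1) := by
  have e := num_succ l i (by omega)
  have hi' : (i : ℝ) + 1 ≤ b := by exact_mod_cast hi
  have hb' : (b : ℝ) ≤ l := by exact_mod_cast hb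
  have hpos : (0 : ℝ) < l - i := by linarith
  refine le_of_mul_le_mul_right ?_ hpos
  rw [← e]
  have h3 : (i : ℝ) + 1 ≤ (1 - δ) * (l - i) :=
    hi'.trans (h.trans (mul_le_mul_of_nonneg_left (by linarith) (by linarith)))
  calc (l.choose (i + 1) : ℝ) * (i + 1) ≤ l.choose (i + 1) * ((1 - δ) * (l - i)) :=
        mul_le_mul_of_nonneg_left h3 (Nat.cast_nonneg _)
    _ = _ := by ring

lemma num_down_pow {l b : ℕ} {δ : ℝ} (hb : b ≤ l) (h1 : δ ≤ 1)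
    (h : (b : ℝ) ≤ (1 - δ) * (l - b + 1)) (m s : ℕ) (hs : m + s ≤ b) :
    (l.choose m : ℝ) ≤ (1 - δ) ^ s * l.choose (m + s) := by
  induction s with
  | zero => simp
  | succ s ih =>
    refine (ih (by omega)).trans ?_
    rw [pow_succ, mul_assoc]
    exact mul_le_mul_of_nonneg_left (num_down hb h1 h hs) (pow_nonneg (by linarith) _)

lemma num_down_sum {l b : ℕ} {δ : ℝ} (hb : b ≤ l) (h1 : δ ≤ 1)
    (h : (b : ℝ) ≤ (1 - δ) * (l - b + 1)) (m : ℕ) (hm : m ≤ b) :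
    δ * ∑ i ∈ range (m + 1), (l.choose i : ℝ) ≤ l.choose m := by
  induction m with
  | zero => simpa using h1
  | succ m ih =>
    rw [sum_range_succ, mul_add]
    have h2 := ih (by omega)
    have h3 := num_down hb h1 h hm
    linarith

theorem num_tail (R z q : ℕ) (hR : 12 ≤ R) (hz : 1 ≤ z) (hq : 1 ≤ q) (l : ℕ)
    (hl : l = 2 * (R ^ 3 * z ^ 2) + 4 * z + R ^ 2 * z) :
    ∑ i ∈ (range (l + 1)).filter (fun i => i + R ^ 2 * z ≤ R ^ 3 * z ^ 2 + 3 * z), (l.choose i : ℝ)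
      ≤ ((2 * z / q + 1 : ℕ) : ℝ) * (l.choose (R ^ 3 * z ^ 2 + 3 * z) : ℝ) * (64 * q / R) := by
  have hR' : (12 : ℝ) ≤ R := by exact_mod_cast hR
  have hz' : (1 : ℝ) ≤ z := by exact_mod_cast hz
  have hQ : R ^ 2 * z ≤ R ^ 3 * z ^ 2 :=
    Nat.mul_le_mul (Nat.pow_le_pow_right (by omega) (by norm_num))
      (Nat.le_self_pow (by norm_num) _)
  obtain ⟨m, hm⟩ : ∃ m, R ^ 3 * z ^ 2 + 3 * z = m + R ^ 2 * z :=
    ⟨R ^ 3 * z ^ 2 + 3 * z - R ^ 2 * z, by omega⟩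
  have hRz : (0 : ℝ) < 2 * R * z := by positivity
  set δ : ℝ := 1 / (2 * R * z) with hδ
  have hδ0 : 0 < δ := by positivity
  have hδ1 : δ ≤ 1 := by rw [hδ, div_le_one hRz]; nlinarith
  have hb : R ^ 3 * z ^ 2 + 3 * z ≤ l := by omega
  have h : ((R ^ 3 * z ^ 2 + 3 * z : ℕ) : ℝ)
      ≤ (1 - δ) * (l - (R ^ 3 * z ^ 2 + 3 * z : ℕ) + 1) := by
    rw [hl]
    push_cast
    have h1 : δ * (R ^ 3 * z ^ 2 + z + R ^ 2 * z + 1) ≤ R ^ 2 * z - 2 * z := by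
      rw [hδ, div_mul_eq_mul_div, one_mul, div_le_iff₀ hRz]
      have h2 : (z : ℝ) ≤ z ^ 2 := by nlinarith
      have h3 : (R : ℝ) ^ 2 * z ≤ R ^ 2 * z ^ 2 := mul_le_mul_of_nonneg_left h2 (by positivity)
      have h4 : (R : ℝ) ^ 2 + 4 * R + 2 ≤ R ^ 3 := by nlinarith
      have h5 := mul_le_mul_of_nonneg_right h4 (sq_nonneg (z : ℝ))
      nlinarith
    nlinarith
  have h1 := num_down_sum hb hδ1 h m (by omega)
  have h2 := num_down_pow hb hδ1 h m (R ^ 2 * z) hm.ge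
  rw [← hm] at h2
  have h3 : (1 - δ) ^ (R ^ 2 * z) ≤ 8 / R ^ 2 := by
    have h4 : (1 - δ) ^ (R ^ 2 * z) ≤ Real.exp (-δ) ^ (R ^ 2 * z) :=
      pow_le_pow_left₀ (by linarith) (Real.one_sub_le_exp_neg δ) _
    have h5 : Real.exp (-δ) ^ (R ^ 2 * z) = (Real.exp (R / 2))⁻¹ := by
      rw [← Real.exp_nat_mul, ← Real.exp_neg]
      congr 1
      rw [hδ]; push_cast; field_simp
    have h6 := Real.quadratic_le_exp_of_nonneg (x := R / 2) (by positivity)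
    rw [h5] at h4
    refine h4.trans ?_
    rw [inv_eq_one_div, div_le_div_iff₀ (Real.exp_pos _) (by positivity)]
    nlinarith
  have h4 : ∑ i ∈ (range (l + 1)).filter (fun i => i + R ^ 2 * z ≤ R ^ 3 * z ^ 2 + 3 * z),
      (l.choose i : ℝ) ≤ ∑ i ∈ range (m + 1), (l.choose i : ℝ) := by
    refine sum_le_sum_of_subset_of_nonneg (fun i hi => ?_) (fun _ _ _ => Nat.cast_nonneg _)
    have := (mem_filter.1 hi).2
    rw [mem_range]; omega
  refine h4.trans ?_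
  set β : ℝ := (l.choose (R ^ 3 * z ^ 2 + 3 * z) : ℝ)
  have hβ : 0 ≤ β := Nat.cast_nonneg _
  have h5 : δ * ∑ i ∈ range (m + 1), (l.choose i : ℝ) ≤ 8 / R ^ 2 * β :=
    h1.trans (h2.trans (mul_le_mul_of_nonneg_right h3 hβ))
  have h6 := num_N z q hq
  refine le_of_mul_le_mul_left (h5.trans ?_) hδ0
  calc 8 / (R : ℝ) ^ 2 * β ≤ 64 / R ^ 2 * β := by gcongr; norm_num
    _ = δ * (64 / R * β) * (2 * z) := by rw [hδ]; field_simp
    _ ≤ δ * (64 / R * β) * (((2 * z / q + 1 : ℕ) : ℝ) * q) :=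
        mul_le_mul_of_nonneg_left h6 (by positivity)
    _ = _ := by ring

lemma num_up (R z : ℕ) (hR : 12 ≤ R) (hz : 1 ≤ z) (l : ℕ)
    (hl : l = 2 * (R ^ 3 * z ^ 2) + 4 * z + R ^ 2 * z) (s : ℕ) :
    (l.choose (R ^ 3 * z ^ 2 + s) : ℝ)
      ≤ (l.choose (R ^ 3 * z ^ 2) : ℝ) * Real.exp (s * (2 / (R * z))) := by
  have hR' : (12 : ℝ) ≤ R := by exact_mod_cast hR
  have hz' : (1 : ℝ) ≤ z := by exact_mod_cast hz
  induction s with
  | zero => simp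
  | succ s ih =>
    rcases lt_or_ge l (R ^ 3 * z ^ 2 + s) with h | h
    · rw [Nat.choose_eq_zero_of_lt (by omega), Nat.cast_zero]; positivity
    have e := num_succ l _ h
    have h1 : (l : ℝ) - (R ^ 3 * z ^ 2 + s : ℕ)
        ≤ Real.exp (2 / (R * z)) * ((R ^ 3 * z ^ 2 + s : ℕ) + 1) := by
      have h2 := Real.add_one_le_exp (2 / (R * z) : ℝ)
      have h3 : (2 / (R * z) + 1 : ℝ) * (R ^ 3 * z ^ 2) = 2 * R ^ 2 * z + R ^ 3 * z ^ 2 := by
        field_simp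
      have h4 : (2 / (R * z) + 1 : ℝ) * (R ^ 3 * z ^ 2)
          ≤ Real.exp (2 / (R * z)) * ((R ^ 3 * z ^ 2 + s : ℕ) + 1) := by
        refine mul_le_mul h2 ?_ (by positivity) (Real.exp_pos _).le
        push_cast
        have : (0 : ℝ) ≤ s := Nat.cast_nonneg _
        linarith
      refine le_trans ?_ h4
      rw [h3, hl]
      push_cast
      have : (0 : ℝ) ≤ s := Nat.cast_nonneg _
      have h5 : (4 : ℝ) * z ≤ R ^ 2 * z := mul_le_mul_of_nonneg_right (by nlinarith) (by linarith)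
      linarith
    have h2 : (l.choose (R ^ 3 * z ^ 2 + s + 1) : ℝ)
        ≤ l.choose (R ^ 3 * z ^ 2 + s) * Real.exp (2 / (R * z)) := by
      refine le_of_mul_le_mul_right ?_
        (show (0 : ℝ) < ((R ^ 3 * z ^ 2 + s : ℕ) : ℝ) + 1 by positivity)
      rw [e, mul_assoc]
      exact mul_le_mul_of_nonneg_left h1 (Nat.cast_nonneg _)
    rw [← add_assoc]
    refine h2.trans ((mul_le_mul_of_nonneg_right ih (Real.exp_pos _).le).trans (le_of_eq ?_))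
    rw [mul_assoc, ← Real.exp_add]
    push_cast
    ring_nf

theorem num_ratio (R z : ℕ) (hR : 12 ≤ R) (hz : 1 ≤ z) (l : ℕ)
    (hl : l = 2 * (R ^ 3 * z ^ 2) + 4 * z + R ^ 2 * z) :
    (l.choose (R ^ 3 * z ^ 2 + 3 * z) : ℝ) ≤ (l.choose (R ^ 3 * z ^ 2) : ℝ) * (1 + 12 / R) := by
  have hR' : (12 : ℝ) ≤ R := by exact_mod_cast hR
  have hz' : (1 : ℝ) ≤ z := by exact_mod_cast hz
  refine (num_up R z hR hz l hl (3 * z)).trans (mul_le_mul_of_nonneg_left ?_ (Nat.cast_nonneg _))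
  have e : ((3 * z : ℕ) : ℝ) * (2 / (R * z)) = 6 / R := by push_cast; field_simp; norm_num
  have h0 : (0 : ℝ) ≤ 6 / R := by positivity
  have h1 : (6 : ℝ) / R ≤ 1 := by rw [div_le_one (by linarith)]; linarith
  have h2 := Real.abs_exp_sub_one_le (x := 6 / R) (by rwa [abs_of_nonneg h0])
  rw [abs_of_nonneg h0] at h2
  have h3 := (abs_le.1 h2).2
  have h4 : (12 : ℝ) / R = 2 * (6 / R) := by ring
  rw [e, h4]
  linarith

lemma num_central (h : ℕ) : 16 ^ (h + 1) ≤ 4 * (h + 1) * (h + 1).centralBinom ^ 2 := by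
  induction h with
  | zero => decide
  | succ h ih =>
    have e := Nat.succ_mul_centralBinom_succ (h + 1)
    refine Nat.le_of_mul_le_mul_left (c := h + 1 + 1) ?_ (by omega)
    calc (h + 1 + 1) * 16 ^ (h + 1 + 1) = 16 * (h + 1 + 1) * 16 ^ (h + 1) := by ring
      _ ≤ 16 * (h + 1 + 1) * (4 * (h + 1) * (h + 1).centralBinom ^ 2) := Nat.mul_le_mul_left _ ih
      _ = 16 * (4 * (h + 1) * (h + 1 + 1)) * (h + 1).centralBinom ^ 2 := by ring
      _ ≤ 16 * (2 * (h + 1) + 1) ^ 2 * (h + 1).centralBinom ^ 2 :=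
          Nat.mul_le_mul_right _ (Nat.mul_le_mul_left _ (by nlinarith))
      _ = 4 * (2 * (2 * (h + 1) + 1) * (h + 1).centralBinom) ^ 2 := by ring
      _ = _ := by rw [← e]; ring

theorem num_mass (R z q : ℕ) (hR : 12 ≤ R) (hE : Even R) (hz : 1 ≤ z) (hq : 1 ≤ q) (l : ℕ)
    (hl : l = 2 * (R ^ 3 * z ^ 2) + 4 * z + R ^ 2 * z) :
    (2 : ℝ) ^ l * (Real.exp (-(2 * R)) / (q * R ^ 2))
      ≤ ((2 * z / q + 1 : ℕ) : ℝ) * (l.choose (R ^ 3 * z ^ 2) : ℝ) := by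
  have hR' : (12 : ℝ) ≤ R := by exact_mod_cast hR
  have hz' : (1 : ℝ) ≤ z := by exact_mod_cast hz
  have hq' : (1 : ℝ) ≤ q := by exact_mod_cast hq
  obtain ⟨u, hu⟩ : Even (R ^ 2 * z) := (hE.pow_of_ne_zero (by norm_num)).mul_right z
  have h4 : 4 * z ≤ R ^ 2 * z := Nat.mul_le_mul_right _ (by nlinarith)
  obtain ⟨h, hh⟩ : ∃ h, R ^ 3 * z ^ 2 + (2 * z + u) = h + 1 :=
    ⟨R ^ 3 * z ^ 2 + (2 * z + u) - 1, by omega⟩
  have hs : 2 * z + u ≤ R ^ 2 * z := by omega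
  have hQ : R ^ 2 * z ≤ R ^ 3 * z ^ 2 :=
    Nat.mul_le_mul (Nat.pow_le_pow_right (by omega) (by norm_num))
      (Nat.le_self_pow (by norm_num) _)
  have hl2 : l = 2 * (h + 1) := by omega
  have hh2 : h + 1 ≤ (R ^ 2 * z) ^ 2 := by
    have : (R ^ 2 * z) ^ 2 = R * (R ^ 3 * z ^ 2) := by ring
    have h5 : 2 * (R ^ 3 * z ^ 2) ≤ R * (R ^ 3 * z ^ 2) := Nat.mul_le_mul_right _ (by omega)
    omega
  have h1 : 2 ^ l ≤ 2 * (R ^ 2 * z) * l.choose (h + 1) := by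
    refine (Nat.pow_le_pow_iff_left (n := 2) (by norm_num)).1 ?_
    calc (2 ^ l) ^ 2 = 16 ^ (h + 1) := by
          rw [hl2, ← pow_mul, show 16 = 2 ^ 4 by norm_num, ← pow_mul]; congr 1; ring
      _ ≤ 4 * (h + 1) * (h + 1).centralBinom ^ 2 := num_central h
      _ ≤ 4 * (R ^ 2 * z) ^ 2 * (h + 1).centralBinom ^ 2 :=
          Nat.mul_le_mul_right _ (Nat.mul_le_mul_left _ hh2)
      _ = _ := by rw [Nat.centralBinom_eq_two_mul_choose, ← hl2]; ring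
  have h1' : (2 : ℝ) ^ l ≤ 2 * (R ^ 2 * z) * l.choose (h + 1) := by exact_mod_cast h1
  have h2 := num_up R z hR hz l hl (2 * z + u)
  rw [hh] at h2
  have h3 : Real.exp ((2 * z + u : ℕ) * (2 / (R * z))) ≤ Real.exp (2 * R) := by
    refine Real.exp_le_exp.2 ?_
    have h5 : ((2 * z + u : ℕ) : ℝ) ≤ R ^ 2 * z := by exact_mod_cast hs
    calc _ ≤ (R ^ 2 * z : ℝ) * (2 / (R * z)) := mul_le_mul_of_nonneg_right h5 (by positivity)
      _ = _ := by field_simp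
  set γ : ℝ := (l.choose (R ^ 3 * z ^ 2) : ℝ)
  have hγ : 0 ≤ γ := Nat.cast_nonneg _
  have h5 : (2 : ℝ) ^ l ≤ 2 * (R ^ 2 * z) * (γ * Real.exp (2 * R)) :=
    h1'.trans (mul_le_mul_of_nonneg_left (h2.trans (mul_le_mul_of_nonneg_left h3 hγ))
      (by positivity))
  have h6 := num_N z q hq
  calc _ ≤ 2 * (R ^ 2 * z) * (γ * Real.exp (2 * R)) * (Real.exp (-(2 * R)) / (q * R ^ 2)) :=
        mul_le_mul_of_nonneg_right h5 (by positivity)
    _ = γ / q * (2 * z) := by rw [Real.exp_neg]; field_simp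
    _ ≤ γ / q * (((2 * z / q + 1 : ℕ) : ℝ) * q) := mul_le_mul_of_nonneg_left h6 (by positivity)
    _ = _ := by field_simp

end Pool.Agent.Lib.MP_8a52c3_lc.Cor
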