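import Pool.Agent.Lib.MP_8a52c3_lc.Cor.Ineq
import Pool.Agent.Lib.MP_8a52c3_lc.Cor.Num

namespace Pool.Agent.Lib.MP_8a52c3_lc.Cor
open Finset

lemma good_max {ζ : ℂ} (hn : ‖ζ‖ = 1) (n : ℕ) :
    ∃ κ : ℝ, κ < 1 ∧ ∀ i < n, ζ ^ i ≠ 1 → ‖(1 + ζ ^ i) / 2‖ ≤ κ := by
  induction n with
  | zero => exact ⟨0, one_pos, fun i hi => absurd hi (Nat.not_lt_zero i)⟩
  | succ n ih =>
    obtain ⟨κ, h1, h2⟩ := ih
    by_cases h : ζ ^ n = 1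
    · exact ⟨κ, h1, fun i hi h' => h2 i
        (lt_of_le_of_ne (Nat.lt_succ_iff.1 hi) fun e => h' (e ▸ h)) h'⟩
    · have h3 := (norm_midpoint_lt_iff (x := (1 : ℂ)) (y := ζ ^ n)
        (by rw [norm_pow, hn, one_pow, norm_one])).2 (Ne.symm h)
      have h4 : (1 / 2 : ℝ) • (1 + ζ ^ n) = (1 + ζ ^ n) / 2 := by
        rw [Complex.real_smul]; push_cast; ring
      rw [h4, norm_one] at h3
      refine ⟨max κ ‖(1 + ζ ^ n) / 2‖, max_lt h1 h3, fun i hi h' => ?_⟩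
      rcases (Nat.lt_succ_iff.1 hi).lt_or_eq with c | rfl
      · exact (h2 i c h').trans (le_max_left _ _)
      · exact le_max_right _ _

lemma good_kappa {q : ℕ} (hq : Odd q) {ζ : ℂ} (hζ : ζ ^ q = 1) (h1 : ζ ≠ 1) :
    ∃ κ : ℝ, κ < 1 ∧ ∀ j : ℕ, ‖(1 + ζ ^ 2 ^ j) / 2‖ ≤ κ := by
  obtain ⟨κ, h2, h3⟩ := good_max (Complex.norm_eq_one_of_pow_eq_one hζ hq.pos.ne') q
  refine ⟨κ, h2, fun j => ?_⟩
  have h4 : ζ ^ 2 ^ j ≠ 1 := fun h => by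
    have h5 := pow_gcd_eq_one.2 ⟨h, hζ⟩
    rw [(Nat.coprime_two_left.2 hq).pow_left j, pow_one] at h5
    exact h1 h5
  rw [pow_eq_pow_mod _ hζ] at h4 ⊢
  exact h3 _ (Nat.mod_lt _ hq.pos) h4

lemma good_z {m : ℕ} (hm : 1 ≤ m) : ∃ e : ℕ, m ≤ 2 ^ e ∧ 2 ^ e ≤ 2 * m := by
  refine ⟨Nat.log 2 m + 1, (Nat.lt_pow_succ_log_self one_lt_two m).le, ?_⟩
  have := Nat.pow_log_le_self 2 (show m ≠ 0 by omega)
  rw [pow_succ]
  omega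

lemma good_real {X T A B E κ q R : ℝ} (hA : 0 ≤ A) (hq : 1 ≤ q) (hR : 12 ≤ R) (hκ : κ < 1)
    (hR2 : 3264 * q / (1 - κ) ≤ R) (hT : T ≤ B * (64 * q / R)) (hB : B ≤ A * (1 + 12 / R))
    (hE : X * E ≤ A) :
    X - (1 - κ) * A + 12 * T + 8 * (B - A) ≤ (1 - (1 - κ) / 2 * E) * X := by
  have h0 : 0 < R := by linarith
  have h1 : 0 < 1 - κ := by linarith
  have h2 : 12 / R ≤ 1 := (div_le_one h0).2 hR
  have h3 : 3264 * (q / R) ≤ 1 - κ := by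
    rw [div_le_iff₀ h1] at hR2
    rw [← mul_div_assoc, div_le_iff₀ h0]
    linarith
  have h4 : 12 / R ≤ 12 * (q / R) := by
    rw [← mul_div_assoc]
    exact div_le_div_of_nonneg_right (by linarith) h0.le
  have h5 : 0 ≤ q / R := by positivity
  have h6 : B * (q / R) ≤ 2 * A * (q / R) :=
    mul_le_mul_of_nonneg_right (by nlinarith) h5
  rw [mul_div_assoc] at hT
  have h7 := mul_le_mul_of_nonneg_left h3 hA
  have h8 := mul_le_mul_of_nonneg_left h4 hA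
  have h9 := mul_le_mul_of_nonneg_left hE h1.le
  nlinarith

theorem good_block (q : ℕ) (hq : Odd q) (ζ : ℂ) (hζ : ζ ^ q = 1) (h1 : ζ ≠ 1) :
    ∃ δ : ℝ, 0 < δ ∧ ∃ C0 : ℕ, ∀ d : ℕ, 1 ≤ d → ∃ l : ℕ, 1 ≤ l ∧ l ≤ C0 * d ^ 2 ∧
      ∃ (P : Pairing (Fin l → F) (LD (Fin l))) (c : ℂ),
        ∑ x, ‖ζ ^ wt x - c * (P.h x : ℂ)‖ + 8 * ‖c‖ * GG P.μ d ≤ (1 - δ) * 2 ^ l := by
  obtain ⟨κ, hκ, hκ'⟩ := good_kappa hq hζ h1
  have hq0 := hq.pos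
  obtain ⟨t, ht⟩ := exists_pow_lt_of_lt_one (show 0 < (1 - κ) / 8 by linarith)
    (show (1 / 2 : ℝ) < 1 by norm_num)
  obtain ⟨s, hs⟩ := pow_unbounded_of_one_lt (max 12 (3264 * q / (1 - κ))) (one_lt_two (α := ℝ))
  obtain ⟨R, hRs⟩ : ∃ R : ℕ, R = 2 ^ (s + 1) := ⟨_, rfl⟩
  have hR' : max 12 (3264 * q / (1 - κ)) ≤ (R : ℝ) := by
    rw [hRs]
    push_cast
    exact hs.le.trans (pow_le_pow_right₀ one_le_two (by omega))
  have hR1 : (12 : ℝ) ≤ R := (le_max_left _ _).trans hR'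
  have hR : 12 ≤ R := by exact_mod_cast hR1
  have hE : Even R := hRs ▸ ⟨2 ^ s, by rw [pow_succ]; omega⟩
  have hq1 : (1 : ℝ) ≤ q := by exact_mod_cast hq0
  refine ⟨(1 - κ) / 2 * (Real.exp (-(2 * R)) / (q * R ^ 2)),
    mul_pos (by linarith) (by positivity), 12 * R ^ 3 * (t + 3) ^ 2, fun d hd => ?_⟩
  obtain ⟨e, he1, he2⟩ := good_z (m := (t + 3) * d) (Nat.mul_pos (by omega) hd)
  obtain ⟨z, hze⟩ : ∃ z : ℕ, z = 2 ^ e := ⟨_, rfl⟩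
  rw [← hze] at he1 he2
  have hz : 1 ≤ z := hze ▸ Nat.one_le_two_pow
  have hj : 2 ^ (2 * (s + 1) + e) = R ^ 2 * z := by rw [hRs, hze]; ring
  have hR2 : 144 ≤ R ^ 2 := by nlinarith
  obtain ⟨l, hl⟩ : ∃ l : ℕ, l = 2 * (R ^ 3 * z ^ 2) + 4 * z + R ^ 2 * z := ⟨_, rfl⟩
  refine ⟨l, by omega, ?_, ?_⟩
  · have e1 : z ≤ z ^ 2 := Nat.le_self_pow two_ne_zero z
    have e2 : 4 + R ^ 2 ≤ R ^ 3 := by nlinarith
    have e3 := Nat.mul_le_mul e2 e1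
    have e4 := Nat.mul_le_mul_left (3 * R ^ 3) (Nat.pow_le_pow_left he2 2)
    rw [hl]
    nlinarith
  · obtain ⟨P, c, h⟩ := block_ineq (2 * (s + 1) + e) (R ^ 3 * z ^ 2 + z) (2 * z) z q
      (2 * z / q + 1) l t d (by rw [hj]; nlinarith) (by omega) hq0
      (by rw [Nat.add_sub_cancel]; exact Nat.mul_div_le _ _) (by rw [hj]; omega) hd he1 ζ hζ κ
      (hκ' _) (by linarith)
    rw [hj, Nat.add_sub_cancel, show R ^ 3 * z ^ 2 + z + 2 * z = R ^ 3 * z ^ 2 + 3 * z by omega]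
      at h
    refine ⟨P, c, h.trans (good_real (by positivity) hq1 hR1 hκ ((le_max_right _ _).trans hR')
      (num_tail R z q hR hz hq0 l hl) ?_ (num_mass R z q hR hE hz hq0 l hl))⟩
    rw [mul_assoc]
    exact mul_le_mul_of_nonneg_left (num_ratio R z hR hz l hl) (Nat.cast_nonneg _)

end Pool.Agent.Lib.MP_8a52c3_lc.Cor
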