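import Pool.Agent.Lib.MP_8a52c3_lc.Cor.Core

namespace Pool.Agent.Lib.MP_8a52c3_lc.Cor
open Finset

/-- Kronecker product of a family of square matrices. -/
def tensor_kr {κ ι : Type} [Fintype κ] (A : κ → Matrix ι ι F) : Matrix (κ → ι) (κ → ι) F :=
  Matrix.of fun u' u => ∏ i, A i (u' i) (u i)

theorem tensor_kr_mul {κ ι : Type} [Fintype κ] [DecidableEq κ] [Fintype ι]
    (A B : κ → Matrix ι ι F) : tensor_kr A * tensor_kr B = tensor_kr fun i => A i * B i := by
  ext u' u
  simp only [tensor_kr, Matrix.mul_apply, Matrix.of_apply]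
  rw [Finset.prod_univ_sum, Fintype.piFinset_univ]
  exact Finset.sum_congr rfl fun w _ => Finset.prod_mul_distrib.symm

theorem tensor_kr_diag {κ ι : Type} [Fintype κ] [DecidableEq κ] [DecidableEq ι] (g : κ → ι → F) :
    (tensor_kr fun i => Matrix.diagonal (g i)) = Matrix.diagonal fun u => ∏ i, g i (u i) := by
  ext u' u
  simp only [tensor_kr, Matrix.of_apply]
  by_cases h : u' = u
  · subst h
    simp
  · rw [Matrix.diagonal_apply_ne _ h]
    obtain ⟨i, hi⟩ := Function.ne_iff.1 h
    exact Finset.prod_eq_zero (Finset.mem_univ i) (Matrix.diagonal_apply_ne _ hi)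

theorem tensor_kr_one {κ ι : Type} [Fintype κ] [DecidableEq κ] [DecidableEq ι] :
    (tensor_kr fun _ : κ => (1 : Matrix ι ι F)) = 1 := by
  have h := tensor_kr_diag (κ := κ) (ι := ι) fun _ _ => 1
  simpa using h

section

variable {X : Type} {D : ℕ → Submodule F (X → F)} (P : Pairing X D)

/-- The evaluation matrix of an information set. -/
def tensor_M (b : F) : Matrix (Fin P.n) (Fin P.n) F := Matrix.of fun u' u => P.v u (P.β b u')

theorem tensor_M_unit (b : F) : IsUnit (tensor_M P b).det := by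
  rw [← Matrix.isUnit_iff_isUnit_det, ← Matrix.mulVec_injective_iff_isUnit]
  intro y z hyz
  have h := P.info b (y - z) fun u' => by
    have h1 := congrFun hyz u'
    simp only [tensor_M, Matrix.mulVec, dotProduct, Matrix.of_apply] at h1
    simp only [Pi.sub_apply, sub_mul, Finset.sum_sub_distrib]
    rw [sub_eq_zero]
    simpa only [mul_comm] using h1
  exact sub_eq_zero.1 h

/-- Multiplication by `g` in interpolation coordinates. -/
noncomputable def tensor_rho (b : F) (g : X → F) : Matrix (Fin P.n) (Fin P.n) F :=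
  (tensor_M P b)⁻¹ * Matrix.diagonal (fun u => g (P.β b u)) * tensor_M P b

theorem tensor_col {δ : ℕ} {g : X → F} (hg : g ∈ D δ) {u : Fin P.n} (hu : δ ≤ P.μ u) :
    ∃ c : Fin P.n → F, (∀ u', c u' ≠ 0 → P.μ u ≤ P.μ u' + δ) ∧
      ∀ b u', tensor_rho P b g u' u = c u' := by
  have h := P.mul δ g hg u hu
  rw [Finsupp.mem_span_image_iff_linearCombination] at h
  obtain ⟨c, hc, hc'⟩ := h
  refine ⟨c, fun u' h' => hc (Finsupp.mem_support_iff.2 h'), fun b u' => ?_⟩
  rw [Finsupp.linearCombination_apply, Finsupp.sum_fintype _ _ (by simp)] at hc'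
  have h1 : ∀ w, (Matrix.diagonal (fun u => g (P.β b u)) * tensor_M P b) w u
      = (tensor_M P b).mulVec c w := by
    intro w
    have h2 := congrFun hc' (P.β b w)
    simp only [Finset.sum_apply, Pi.smul_apply, smul_eq_mul, Pi.mul_apply] at h2
    rw [Matrix.diagonal_mul]
    simp only [tensor_M, Matrix.mulVec, dotProduct, Matrix.of_apply]
    rw [← h2]
    exact Finset.sum_congr rfl fun x _ => mul_comm _ _
  have h3 : (tensor_M P b)⁻¹.mulVec ((tensor_M P b).mulVec c) = c := by
    rw [Matrix.mulVec_mulVec, Matrix.nonsing_inv_mul _ (tensor_M_unit P b), Matrix.one_mulVec]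
  rw [tensor_rho, Matrix.mul_assoc, Matrix.mul_apply, ← congrFun h3 u']
  simp only [h1]
  rfl

variable {κ : Type} [Fintype κ] [DecidableEq κ]

/-- Multiplication by `p` in the product interpolation coordinates. -/
noncomputable def tensor_e (s : κ → F) (p : (κ → X) → F) :
    Matrix (κ → Fin P.n) (κ → Fin P.n) F :=
  (tensor_kr fun i => (tensor_M P (s i))⁻¹) *
    Matrix.diagonal (fun u : κ → Fin P.n => p fun i => P.β (s i) (u i)) *
      tensor_kr fun i => tensor_M P (s i)

theorem tensor_MN (s : κ → F) :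
    ((tensor_kr fun i => tensor_M P (s i)) * tensor_kr fun i => (tensor_M P (s i))⁻¹) = 1 := by
  rw [tensor_kr_mul]
  simp only [Matrix.mul_nonsing_inv _ (tensor_M_unit P _)]
  exact tensor_kr_one

theorem tensor_e_idem (s : κ → F) (p : (κ → X) → F) :
    tensor_e P s p * tensor_e P s p = tensor_e P s p := by
  have hx : ∀ x : F, x * x = x := by decide
  simp only [tensor_e, Matrix.mul_assoc]
  rw [← Matrix.mul_assoc (tensor_kr fun i => tensor_M P (s i)), tensor_MN, Matrix.one_mul,
    ← Matrix.mul_assoc (Matrix.diagonal _), Matrix.diagonal_mul_diagonal]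
  simp only [hx]

theorem tensor_e_rank (s : κ → F) (p : (κ → X) → F) :
    ((tensor_e P s p).rank : ℝ) = ∑ u : κ → Fin P.n, ((p fun i => P.β (s i) (u i)).val : ℝ) := by
  have hx : ∀ x : F, x.val = if x ≠ 0 then 1 else 0 := by decide
  have h1 := Matrix.isUnit_det_of_right_inverse (tensor_MN P s)
  have h2 := Matrix.isUnit_det_of_left_inverse (tensor_MN P s)
  rw [tensor_e, Matrix.rank_mul_eq_left_of_isUnit_det _ _ h1,
    Matrix.rank_mul_eq_right_of_isUnit_det _ _ h2, Matrix.rank_diagonal, Fintype.card_subtype,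
    Finset.card_filter]
  simp only [hx]
  push_cast
  rfl

theorem tensor_e_add (s : κ → F) (p q : (κ → X) → F) :
    tensor_e P s (p + q) = tensor_e P s p + tensor_e P s q := by
  simp only [tensor_e, Pi.add_apply]
  rw [← Matrix.add_mul, ← Matrix.mul_add, Matrix.diagonal_add]

theorem tensor_e_smul (s : κ → F) (a : F) (p : (κ → X) → F) :
    tensor_e P s (a • p) = a • tensor_e P s p := by
  simp only [tensor_e]
  rw [← Matrix.smul_mul, ← Matrix.mul_smul, ← Matrix.diagonal_smul]
  rfl

theorem tensor_e_zero (s : κ → F) : tensor_e P s 0 = 0 := by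
  simp [tensor_e]

theorem tensor_e_prod (s : κ → F) (g : κ → X → F) :
    tensor_e P s (fun x => ∏ i, g i (x i)) = tensor_kr fun i => tensor_rho P (s i) (g i) := by
  rw [tensor_e, ← tensor_kr_diag (fun i u => g i (P.β (s i) u)), tensor_kr_mul, tensor_kr_mul]
  rfl

theorem tensor_hA {d : ℕ} {p : (κ → X) → F} (hp : p ∈ TD κ D d) (s : κ → F)
    (u u' : κ → Fin P.n) (h : ¬ ∑ i, (P.μ (u i) - P.μ (u' i)) ≤ d) :
    tensor_e P s p u' u = 0 := by
  induction hp using Submodule.span_induction with
  | mem f hf =>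
    obtain ⟨δ, g, hδ, hg, rfl⟩ := hf
    rw [tensor_e_prod]
    by_contra hne
    refine h ((Finset.sum_le_sum fun i _ => ?_).trans hδ)
    have h1 : tensor_rho P (s i) (g i) (u' i) (u i) ≠ 0 := fun h0 =>
      hne (Finset.prod_eq_zero (Finset.mem_univ i) h0)
    rcases le_or_gt (δ i) (P.μ (u i)) with h2 | h2
    · obtain ⟨c, hc, hc'⟩ := tensor_col P (hg i) h2
      have h3 := hc (u' i) (by rw [← hc' (s i)]; exact h1)
      omega
    · omega
  | zero => rw [tensor_e_zero]; rfl
  | add f g _ _ hf hg => rw [tensor_e_add, Matrix.add_apply, hf, hg, add_zero]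
  | smul a f _ hf => rw [tensor_e_smul, Matrix.smul_apply, hf, smul_zero]

theorem tensor_hB {d : ℕ} {p : (κ → X) → F} (hp : p ∈ TD κ D d) (s t : κ → F)
    (u : κ → Fin P.n) (h : ∀ i, P.μ (u i) < d → s i = t i) (u' : κ → Fin P.n) :
    tensor_e P s p u' u = tensor_e P t p u' u := by
  induction hp using Submodule.span_induction with
  | mem f hf =>
    obtain ⟨δ, g, hδ, hg, rfl⟩ := hf
    rw [tensor_e_prod, tensor_e_prod]
    refine Finset.prod_congr rfl fun i _ => ?_
    show tensor_rho P (s i) (g i) (u' i) (u i) = tensor_rho P (t i) (g i) (u' i) (u i)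
    rcases lt_or_ge (P.μ (u i)) d with h2 | h2
    · rw [h i h2]
    · have h3 : δ i ≤ ∑ j, δ j :=
        Finset.single_le_sum (f := δ) (fun j _ => Nat.zero_le _) (Finset.mem_univ i)
      obtain ⟨c, -, hc'⟩ := tensor_col P (hg i) (h3.trans (hδ.trans h2))
      rw [hc', hc']
  | zero => rw [tensor_e_zero, tensor_e_zero]
  | add f g _ _ hf hg => rw [tensor_e_add, tensor_e_add, Matrix.add_apply, Matrix.add_apply, hf, hg]
  | smul a f _ hf => rw [tensor_e_smul, tensor_e_smul, Matrix.smul_apply, Matrix.smul_apply, hf]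

end

theorem tensor_bound {κ X : Type} [Fintype κ] [DecidableEq κ] {D : ℕ → Submodule F (X → F)}
    (P : Pairing X D) (d : ℕ) (hd : 1 ≤ d) (p : (κ → X) → F) (hp : p ∈ TD κ D d) :
    |∑ s : κ → F, ∑ u : κ → Fin P.n,
        ((∏ i, sg (s i) : ℤ) : ℝ) * ((p (fun i => P.β (s i) (u i))).val : ℝ)|
      ≤ 2 * (8 * GG P.μ d) ^ Fintype.card κ := by
  have h := core_bound P.μ d hd (fun s : κ → F => (tensor_e P s p).transpose)
    (fun s => by rw [← Matrix.transpose_mul, tensor_e_idem])
    (fun s u u' hne => by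
      by_contra h
      exact hne (tensor_hA P hp s u u' h))
    (fun s t u h => funext fun u' => tensor_hB P hp s t u h u')
  simp only [Matrix.rank_transpose, tensor_e_rank, Finset.mul_sum] at h
  exact h

end Pool.Agent.Lib.MP_8a52c3_lc.Cor
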